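import Pool.Agent.P8H49.GM.Stm

/-! # Project GM, package MERT -/

set_option autoImplicit false

namespace Pool.Agent.P8H54.GM

open Finset
open Pool.Agent.H373R2.T7 (pz Vz mem_pz)
open Pool.Agent.R521.GG (S_mert)
open Pool.Agent.P8H49.GM

lemma one_le_fac (p : ℕ) : (1 : ℝ) ≤ 1 + 4 / (p : ℝ) := by
  have : (0 : ℝ) ≤ 4 / (p : ℝ) := by positivity
  linarith

lemma one_le_gw (w m : ℕ) : 1 ≤ gw w m := by
  unfold gw
  exact Finset.prod_induction _ (fun x : ℝ => 1 ≤ x) (fun a b => one_le_mul_of_one_le_of_one_le)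
    le_rfl (fun p _ => one_le_fac p)

lemma Vz_pos (z : ℕ) : 0 < Vz z := by
  unfold Vz
  refine Finset.prod_pos fun p hp => ?_
  have h2 : (2 : ℝ) ≤ p := by exact_mod_cast (mem_pz.1 hp).2.two_le
  have h3 : 1 / (p : ℝ) ≤ 1 / 2 := one_div_le_one_div_of_le (by norm_num) h2
  linarith

lemma Vz_split {w y : ℕ} (hwy : w ≤ y) :
    ∏ p ∈ (pz y).filter (fun p => w < p), (1 - 1 / (p : ℝ)) = Vz y / Vz w := by
  rw [eq_div_iff (Vz_pos w).ne']
  unfold Vz
  rw [mul_comm]
  have h1 : pz w = (pz y).filter (fun p => ¬ w < p) := by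
    ext p
    rw [mem_filter, mem_pz, mem_pz]
    constructor
    · rintro ⟨h1, h2⟩
      exact ⟨⟨h1.trans hwy, h2⟩, by omega⟩
    · rintro ⟨⟨_, h2⟩, h3⟩
      exact ⟨by omega, h2⟩
  rw [h1, mul_comm]
  exact Finset.prod_filter_mul_prod_filter_not (pz y) (fun p => w < p) _

lemma Pi2_le {w y h : ℕ} (hw : 3 ≤ w) (hwy : w ≤ y) (hh : 1 ≤ h) :
    Pi2 w y h ≤ (Vz y / Vz w) ^ 2 * gw w h := by
  rw [← Vz_split hwy, ← Finset.prod_pow]
  have h1 : Pi2 w y h ≤ ∏ p ∈ (pz y).filter (fun p => w < p),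
      ((1 - 1 / (p : ℝ)) ^ 2 * (if p ∣ h then 1 + 4 / (p : ℝ) else 1)) := by
    unfold Pi2
    refine Finset.prod_le_prod (fun p hp => ?_) (fun p hp => ?_)
    · have h3 : (3 : ℝ) ≤ p := by
        have := (mem_filter.1 hp).2
        exact_mod_cast (by omega : 3 ≤ p)
      have h4 : (1 : ℝ) / p ≤ 1 / 3 := one_div_le_one_div_of_le (by norm_num) h3
      have h5 : (2 : ℝ) / p ≤ 2 / 3 := by
        rw [div_le_div_iff₀ (by linarith) (by norm_num)]
        linarith
      split_ifs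
      · push_cast; linarith
      · push_cast; linarith
    · have h3 : (3 : ℝ) ≤ p := by
        have := (mem_filter.1 hp).2
        exact_mod_cast (by omega : 3 ≤ p)
      have hp0 : (0 : ℝ) < p := by linarith
      obtain ⟨u, hu⟩ : ∃ u : ℝ, u = 1 / p := ⟨_, rfl⟩
      have hu0 : 0 < u := by rw [hu]; positivity
      have hu3 : u ≤ 1 / 3 := by rw [hu]; exact one_div_le_one_div_of_le (by norm_num) h3
      split_ifs
      · have e4 : 4 / (p : ℝ) = 4 * u := by rw [hu]; ring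
        have e1 : ((1 : ℕ) : ℝ) / p = u := by rw [hu]; push_cast; ring
        rw [e4, e1, ← hu]
        have : 0 ≤ (1 - u) * ((1 - u) * (1 + 4 * u) - 1) := by
          apply mul_nonneg (by linarith)
          nlinarith
        nlinarith
      · have e2 : ((2 : ℕ) : ℝ) / p = 2 * u := by rw [hu]; push_cast; ring
        rw [e2, ← hu]
        nlinarith [sq_nonneg u]
  refine h1.trans ?_
  rw [Finset.prod_mul_distrib]
  refine mul_le_mul_of_nonneg_left ?_ (Finset.prod_nonneg fun p _ => sq_nonneg _)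
  rw [Finset.prod_ite, Finset.prod_const_one, mul_one]
  unfold gw
  have hsub : ((pz y).filter (fun p => w < p)).filter (fun p => p ∣ h) ⊆
      h.primeFactors.filter (fun p => w < p) := by
    intro p hp
    rw [mem_filter, mem_filter, mem_pz] at hp
    rw [mem_filter, Nat.mem_primeFactors]
    exact ⟨⟨hp.1.1.2, hp.2, by omega⟩, hp.1.2⟩
  rw [← Finset.prod_sdiff hsub]
  refine le_mul_of_one_le_left (Finset.prod_nonneg fun p _ => zero_le_one.trans (one_le_fac p)) ?_
  exact Finset.prod_induction _ (fun x : ℝ => 1 ≤ x) (fun a b => one_le_mul_of_one_le_of_one_le)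
    le_rfl (fun p _ => one_le_fac p)

theorem t_mertc : S_mert → S_MERT := by
  rintro ⟨C0, hC0, hm⟩ K1 hK1
  refine ⟨4 * K1 ^ 2 * C0 ^ 2, by positivity, fun w hw => ⟨(w + 2) ^ K1, fun n hn y hy h hh => ?_⟩⟩
  have hyw : w + 2 < y + 1 := lt_of_pow_lt_pow_left₀ K1 (by omega) (hn.trans_lt hy)
  have hy5 : 5 ≤ y := by omega
  have hn5 : 5 ≤ n := by
    calc 5 ≤ w + 2 := by omega
      _ = (w + 2) ^ 1 := (pow_one _).symm
      _ ≤ (w + 2) ^ K1 := Nat.pow_le_pow_right (by omega) hK1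
      _ ≤ n := hn
  have hK0 : (0 : ℝ) < K1 := by exact_mod_cast hK1
  have hlogn : 0 < Real.log n := Real.log_pos (by exact_mod_cast (by omega : 1 < n))
  have hlogy : 0 < Real.log y := Real.log_pos (by exact_mod_cast (by omega : 1 < y))
  have h1 : Real.log n ≤ K1 * (2 * Real.log y) := by
    have h2 : (n : ℝ) ≤ ((y : ℝ) ^ 2) ^ K1 := by
      have h3 : (y + 1) ^ K1 ≤ (y ^ 2) ^ K1 := Nat.pow_le_pow_left (by nlinarith) K1
      exact_mod_cast hy.le.trans h3
    have h4 := Real.log_le_log (by exact_mod_cast (by omega : 0 < n)) h2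
    rw [Real.log_pow, Real.log_pow] at h4
    push_cast at h4
    exact h4
  have hVy : Vz y ≤ 2 * K1 * C0 / Real.log n := by
    rw [le_div_iff₀ hlogn]
    have h2 := hm y (by omega)
    have h3 := (Vz_pos y).le
    calc Vz y * Real.log n ≤ Vz y * (K1 * (2 * Real.log y)) := mul_le_mul_of_nonneg_left h1 h3
      _ = 2 * K1 * (Vz y * Real.log y) := by ring
      _ ≤ 2 * K1 * C0 := mul_le_mul_of_nonneg_left h2 (by positivity)
  refine (Pi2_le hw (by omega : w ≤ y) hh).trans ?_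
  refine mul_le_mul_of_nonneg_right ?_ (zero_le_one.trans (one_le_gw w h))
  have hVw := Vz_pos w
  rw [div_pow, div_le_div_iff₀ (by positivity) (by positivity)]
  have h5 : Vz y ^ 2 ≤ (2 * K1 * C0 / Real.log n) ^ 2 := pow_le_pow_left₀ (Vz_pos y).le hVy 2
  rw [div_pow, le_div_iff₀ (by positivity)] at h5
  nlinarith [sq_nonneg (Vz w), pow_pos hVw 2]

end Pool.Agent.P8H54.GM
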