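import Pool.Agent.P8H54.GM.Mert

/-! # Project GM, package SUM -/

set_option autoImplicit false

namespace Pool.Agent.P8H54.GM

open Finset
open Pool.Agent.H373R2.T7 (pz Vz mem_pz)
open Pool.Agent.P8H49.GM

lemma sum_inj {F : ℕ → ℝ} (hF : ∀ m, 0 ≤ F m) (s t : Finset ℕ) (g : ℕ → ℕ)
    (hg : Set.InjOn g s) (hst : ∀ k ∈ s, g k ∈ t) : ∑ k ∈ s, F (g k) ≤ ∑ m ∈ t, F m := by
  rw [← Finset.sum_image (f := F) hg]
  refine Finset.sum_le_sum_of_subset_of_nonneg ?_ (fun m _ _ => hF m)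
  intro m hm
  obtain ⟨k, hk, rfl⟩ := mem_image.1 hm
  exact hst k hk

lemma WW_pos (w : ℕ) : 0 < WW w := Finset.prod_pos fun p hp => (mem_pz.1 hp).2.pos

lemma amgm {a b c : ℝ} (ha : 0 ≤ a) (hb : 0 ≤ b) (hc : 0 ≤ c) :
    (a * b * c) ^ 2 ≤ (a ^ 6 + b ^ 6 + c ^ 6) / 3 := by
  have h1 : (a ^ 2) ^ 3 + (b ^ 2) ^ 3 + (c ^ 2) ^ 3 - 3 * (a ^ 2 * b ^ 2 * c ^ 2) =
      (a ^ 2 + b ^ 2 + c ^ 2) * ((a ^ 2 - b ^ 2) ^ 2 + (b ^ 2 - c ^ 2) ^ 2 +
        (c ^ 2 - a ^ 2) ^ 2) / 2 := by ring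
  have h2 : 0 ≤ (a ^ 2 + b ^ 2 + c ^ 2) * ((a ^ 2 - b ^ 2) ^ 2 + (b ^ 2 - c ^ 2) ^ 2 +
        (c ^ 2 - a ^ 2) ^ 2) / 2 := by positivity
  nlinarith

lemma one_le_GG (w k h : ℕ) : 1 ≤ GG w k h :=
  one_le_mul_of_one_le_of_one_le (one_le_mul_of_one_le_of_one_le (one_le_gw _ _) (one_le_gw _ _))
    (one_le_gw _ _)

/-- the sum over the differences -/
lemma sum_K {w n h : ℕ} (hhn : h ≤ n) {Ca : ℝ}
    (havg : ∀ N : ℕ, n ≤ N → ∀ r : ℕ,
      ∑ m ∈ (Icc 1 N).filter (fun m => m ≡ r [MOD WW w]), (gw w m ^ 6 - 1) ≤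
        Ca * (N / WW w) / w) :
    ∑ k ∈ (Icc 1 (2 * n)).filter (fun k => WW w ∣ k ∧ k ≠ h), (GG w k h ^ 2 - 1) ≤
      3 * Ca * (n / WW w) / w := by
  obtain ⟨F, hF⟩ : ∃ F : ℕ → ℝ, ∀ m, F m = gw w m ^ 6 - 1 := ⟨fun m => gw w m ^ 6 - 1, fun _ => rfl⟩
  have hF0 : ∀ m, 0 ≤ F m := fun m => by
    rw [hF]
    have := one_le_pow₀ (one_le_gw w m) (n := 6)
    linarith
  have havg' : ∀ N : ℕ, n ≤ N → ∀ r : ℕ,
      ∑ m ∈ (Icc 1 N).filter (fun m => m ≡ r [MOD WW w]), F m ≤ Ca * (N / WW w) / w := by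
    intro N hN r
    have := havg N hN r
    simp_rw [← hF] at this
    exact this
  obtain ⟨K, hK⟩ : ∃ K, K = (Icc 1 (2 * n)).filter (fun k => WW w ∣ k ∧ k ≠ h) := ⟨_, rfl⟩
  rw [← hK]
  have hKm : ∀ k ∈ K, 1 ≤ k ∧ k ≤ 2 * n ∧ k ≡ 0 [MOD WW w] ∧ k ≠ h := by
    intro k hk
    rw [hK, mem_filter, mem_Icc] at hk
    exact ⟨hk.1.1, hk.1.2, (Nat.modEq_zero_iff_dvd).2 hk.2.1, hk.2.2⟩
  have hW := WW_pos w
  have e1 : ∑ k ∈ K, F k ≤ Ca * (((2 * n : ℕ) : ℝ) / WW w) / w := by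
    refine le_trans (sum_inj hF0 K _ id (fun a _ b _ h => h) fun k hk => ?_)
      (havg' (2 * n) (by omega) 0)
    obtain ⟨h1, h2, h3, _⟩ := hKm k hk
    exact mem_filter.2 ⟨mem_Icc.2 ⟨h1, h2⟩, h3⟩
  have e3 : ∑ k ∈ K, F (k + h) ≤ Ca * (((3 * n : ℕ) : ℝ) / WW w) / w := by
    refine le_trans (sum_inj hF0 K _ (fun k => k + h) (fun a _ b _ h => by simpa using h)
      fun k hk => ?_) (havg' (3 * n) (by omega) h)
    obtain ⟨h1, h2, h3, _⟩ := hKm k hk
    refine mem_filter.2 ⟨mem_Icc.2 ⟨by omega, by omega⟩, ?_⟩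
    have := Nat.ModEq.add_right h h3
    rwa [zero_add] at this
  have e2a : ∑ k ∈ K.filter (fun k => h < k), F (Nat.dist k h) ≤
      Ca * (((2 * n : ℕ) : ℝ) / WW w) / w := by
    refine le_trans (sum_inj hF0 _ _ (fun k => Nat.dist k h) (fun a ha b hb hab => ?_)
      fun k hk => ?_) (havg' (2 * n) (by omega) ((WW w - 1) * h))
    · have ha' := (mem_filter.1 (mem_coe.1 ha)).2
      have hb' := (mem_filter.1 (mem_coe.1 hb)).2
      simp only [Nat.dist] at hab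
      omega
    · rw [mem_filter] at hk
      obtain ⟨h1, h2, h3, _⟩ := hKm k hk.1
      have hd : Nat.dist k h = k - h := by simp only [Nat.dist]; omega
      have hlt := hk.2
      rw [hd]
      refine mem_filter.2 ⟨mem_Icc.2 ⟨by omega, by omega⟩, ?_⟩
      have h5 : k - h + WW w * h = k + (WW w - 1) * h := by
        obtain ⟨W, hW'⟩ : ∃ W, WW w = W + 1 := ⟨WW w - 1, by omega⟩
        rw [hW', Nat.add_sub_cancel, Nat.add_mul]
        omega
      have h6 : k - h + WW w * h ≡ k - h [MOD WW w] := by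
        have : WW w * h ≡ 0 [MOD WW w] := (Nat.modEq_zero_iff_dvd).2 (dvd_mul_right _ _)
        simpa using Nat.ModEq.add_left (k - h) this
      have h7 : k + (WW w - 1) * h ≡ (WW w - 1) * h [MOD WW w] := by
        simpa using Nat.ModEq.add_right ((WW w - 1) * h) h3
      rw [← h5] at h7
      exact h6.symm.trans h7
  have e2b : ∑ k ∈ K.filter (fun k => ¬ h < k), F (Nat.dist k h) ≤
      Ca * (((2 * n : ℕ) : ℝ) / WW w) / w := by
    refine le_trans (sum_inj hF0 _ _ (fun k => Nat.dist k h) (fun a ha b hb hab => ?_)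
      fun k hk => ?_) (havg' (2 * n) (by omega) h)
    · have ha' := (mem_filter.1 (mem_coe.1 ha)).2
      have hb' := (mem_filter.1 (mem_coe.1 hb)).2
      simp only [Nat.dist] at hab
      omega
    · rw [mem_filter] at hk
      obtain ⟨h1, h2, h3, h4⟩ := hKm k hk.1
      have hlt := hk.2
      have hd : Nat.dist k h = h - k := by simp only [Nat.dist]; omega
      rw [hd]
      refine mem_filter.2 ⟨mem_Icc.2 ⟨by omega, by omega⟩, ?_⟩
      have h6 : h - k + k ≡ h - k + 0 [MOD WW w] := Nat.ModEq.add_left (h - k) h3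
      rw [Nat.sub_add_cancel (by omega), add_zero] at h6
      exact h6.symm
  have e2 : ∑ k ∈ K, F (Nat.dist k h) ≤ 2 * (Ca * (((2 * n : ℕ) : ℝ) / WW w) / w) := by
    rw [← Finset.sum_filter_add_sum_filter_not K (fun k => h < k)]
    linarith
  have e0 : ∑ k ∈ K, (GG w k h ^ 2 - 1) ≤
      ∑ k ∈ K, (F k + F (Nat.dist k h) + F (k + h)) / 3 := by
    refine Finset.sum_le_sum fun k _ => ?_
    have := amgm (zero_le_one.trans (one_le_gw w k)) (zero_le_one.trans (one_le_gw w (Nat.dist k h)))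
      (zero_le_one.trans (one_le_gw w (k + h)))
    unfold GG
    rw [hF, hF, hF]
    linarith
  rw [← Finset.sum_div, Finset.sum_add_distrib, Finset.sum_add_distrib] at e0
  have e4 : Ca * (((2 * n : ℕ) : ℝ) / WW w) / w = 2 * (Ca * (n / WW w) / w) := by
    push_cast; ring
  have e5 : Ca * (((3 * n : ℕ) : ℝ) / WW w) / w = 3 * (Ca * (n / WW w) / w) := by
    push_cast; ring
  rw [e4] at e1 e2
  rw [e5] at e3
  have e6 : 3 * Ca * (n / WW w) / w = 3 * (Ca * (n / WW w) / w) := by ring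
  rw [e6]
  linarith

open Classical in
/-- the pairs with a given distance -/
lemma card_pairs {w ξ A B h n k : ℕ} (hB : B ≤ 2 * n) (hk : 1 ≤ k) :
    (((PP (WW w) ξ A B h) ×ˢ (PP (WW w) ξ A B h)).filter
      (fun q : ℕ × ℕ => Nat.dist q.1 q.2 = k)).card ≤
    2 * ((Icc 1 (2 * n)).filter (fun x => x ≡ ξ [MOD WW w] ∧ x.Prime ∧ (x + h).Prime ∧
      (x + k).Prime ∧ (x + k + h).Prime)).card := by
  obtain ⟨M, hM⟩ : ∃ M, M = (Icc 1 (2 * n)).filter (fun x => x ≡ ξ [MOD WW w] ∧ x.Prime ∧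
    (x + h).Prime ∧ (x + k).Prime ∧ (x + k + h).Prime) := ⟨_, rfl⟩
  rw [← hM]
  have hsub : ((PP (WW w) ξ A B h) ×ˢ (PP (WW w) ξ A B h)).filter
      (fun q : ℕ × ℕ => Nat.dist q.1 q.2 = k) ⊆
      M.image (fun x => (x, x + k)) ∪ M.image (fun x => (x + k, x)) := by
    rintro ⟨x, x'⟩ hq
    rw [mem_filter, mem_product] at hq
    obtain ⟨⟨h1, h2⟩, h3⟩ := hq
    simp only [PP, mem_filter, mem_Ioc] at h1 h2
    simp only [Nat.dist] at h3
    rw [mem_union, mem_image, mem_image]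
    rcases le_total x x' with h | h
    · left
      have e : x + k = x' := by omega
      refine ⟨x, ?_, by rw [e]⟩
      rw [hM, mem_filter, mem_Icc]
      refine ⟨⟨by omega, by omega⟩, h1.2.1, h1.2.2.1, h1.2.2.2, ?_, ?_⟩
      · rw [e]; exact h2.2.2.1
      · rw [e]; exact h2.2.2.2
    · right
      have e : x' + k = x := by omega
      refine ⟨x', ?_, by rw [e]⟩
      rw [hM, mem_filter, mem_Icc]
      refine ⟨⟨by omega, by omega⟩, h2.2.1, h2.2.2.1, h2.2.2.2, ?_, ?_⟩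
      · rw [e]; exact h1.2.2.1
      · rw [e]; exact h1.2.2.2
  calc _ ≤ (M.image (fun x => (x, x + k)) ∪ M.image (fun x => (x + k, x))).card := card_le_card hsub
    _ ≤ (M.image (fun x => (x, x + k))).card + (M.image (fun x => (x + k, x))).card :=
        card_union_le _ _
    _ ≤ M.card + M.card := add_le_add card_image_le card_image_le
    _ = 2 * M.card := by ring

theorem t_sum : S_MAJ → S_AVG → S_MERT → S_SUM := by
  classical
  rintro ⟨K1, C1, hK1, hC1, hmaj⟩ ⟨Ca, hCa, havg⟩ hmert c0 hc0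
  obtain ⟨C2, hC2, hmert⟩ := hmert K1 hK1
  refine ⟨6 * C1 * Ca * (2 * C2 / c0) ^ 2, by positivity, fun w hw => ?_⟩
  obtain ⟨n1, hmaj⟩ := hmaj w hw
  obtain ⟨n2, havg⟩ := havg w hw
  obtain ⟨n3, hmert⟩ := hmert w hw
  refine ⟨n1 + n2 + n3 + 2, fun n hn A B ξ h hAB hB hh hhn hgw hP => ?_⟩
  obtain ⟨y, hy1, hy2⟩ : ∃ y : ℕ, y ^ K1 ≤ n ∧ n < (y + 1) ^ K1 := by
    refine ⟨Nat.findGreatest (fun y => y ^ K1 ≤ n) n, ?_, ?_⟩
    · exact Nat.findGreatest_spec (P := fun y => y ^ K1 ≤ n) (Nat.zero_le n)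
        (by rw [zero_pow (by omega)]; exact Nat.zero_le n)
    · by_contra hlt
      rw [not_lt] at hlt
      have h1 : Nat.findGreatest (fun y => y ^ K1 ≤ n) n + 1 ≤ n :=
        le_trans (Nat.le_self_pow (by omega) _) hlt
      exact Nat.findGreatest_is_greatest (Nat.lt_succ_self _) h1 hlt
  have hW : (0 : ℝ) < WW w := by exact_mod_cast WW_pos w
  have hw0 : (0 : ℝ) < w := by exact_mod_cast (by omega : 0 < w)
  have hn0 : (0 : ℝ) < n := by exact_mod_cast (by omega : 0 < n)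
  obtain ⟨P, hPdef⟩ : ∃ P, P = PP (WW w) ξ A B h := ⟨_, rfl⟩
  obtain ⟨Pp, hPp⟩ : ∃ Pp, Pp = Pi2 w y h := ⟨_, rfl⟩
  obtain ⟨K, hK⟩ : ∃ K, K = (Icc 1 (2 * n)).filter (fun k => WW w ∣ k ∧ k ≠ h) := ⟨_, rfl⟩
  -- first step
  have s1 : SG w h P ≤ ∑ k ∈ K, 2 * (C1 * (n / WW w) * Pp ^ 2 * GG w k h) * (GG w k h - 1) := by
    unfold SG
    have hpair : ∑ x ∈ P, ∑ x' ∈ P.filter (fun x' => x' ≠ x ∧ Nat.dist x x' ≠ h),
        (GG w (Nat.dist x x') h - 1) =
        ∑ q ∈ (P ×ˢ P).filter (fun q : ℕ × ℕ => q.2 ≠ q.1 ∧ Nat.dist q.1 q.2 ≠ h),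
          (GG w (Nat.dist q.1 q.2) h - 1) := by
      rw [Finset.sum_filter, Finset.sum_product]
      refine Finset.sum_congr rfl fun x _ => ?_
      rw [Finset.sum_filter]
    rw [hpair]
    have hmaps : ∀ q ∈ (P ×ˢ P).filter (fun q : ℕ × ℕ => q.2 ≠ q.1 ∧ Nat.dist q.1 q.2 ≠ h),
        Nat.dist q.1 q.2 ∈ K := by
      rintro ⟨x, x'⟩ hq
      rw [mem_filter, mem_product] at hq
      obtain ⟨⟨h1, h2⟩, h3, h4⟩ := hq
      rw [hPdef] at h1 h2
      simp only [PP, mem_filter, mem_Ioc] at h1 h2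
      rw [hK, mem_filter, mem_Icc]
      refine ⟨?_, ?_, h4⟩
      · simp only [Nat.dist] at h3 ⊢
        omega
      · have h5 : x ≡ x' [MOD WW w] := h1.2.1.trans h2.2.1.symm
        simp only [Nat.dist]
        rcases le_total x x' with hle | hle
        · rw [Nat.sub_eq_zero_of_le hle, zero_add]
          exact (Nat.modEq_iff_dvd' hle).1 h5
        · rw [Nat.sub_eq_zero_of_le hle, add_zero]
          exact (Nat.modEq_iff_dvd' hle).1 h5.symm
    rw [← Finset.sum_fiberwise_of_maps_to hmaps]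
    refine Finset.sum_le_sum fun k hk => ?_
    have hk' := hk
    rw [hK, mem_filter, mem_Icc] at hk'
    have hG := one_le_GG w k h
    have h5 : ∑ q ∈ ((P ×ˢ P).filter (fun q : ℕ × ℕ => q.2 ≠ q.1 ∧ Nat.dist q.1 q.2 ≠ h)).filter
        (fun q => Nat.dist q.1 q.2 = k), (GG w (Nat.dist q.1 q.2) h - 1) =
        ((((P ×ˢ P).filter (fun q : ℕ × ℕ => q.2 ≠ q.1 ∧ Nat.dist q.1 q.2 ≠ h)).filter
        (fun q => Nat.dist q.1 q.2 = k)).card : ℝ) * (GG w k h - 1) := by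
      rw [← nsmul_eq_mul, ← Finset.sum_const]
      refine Finset.sum_congr rfl fun q hq => ?_
      rw [(mem_filter.1 hq).2]
    rw [h5]
    refine mul_le_mul_of_nonneg_right ?_ (by linarith)
    have h6 : (((P ×ˢ P).filter (fun q : ℕ × ℕ => q.2 ≠ q.1 ∧ Nat.dist q.1 q.2 ≠ h)).filter
        (fun q => Nat.dist q.1 q.2 = k)).card ≤
        2 * ((Icc 1 (2 * n)).filter (fun x => x ≡ ξ [MOD WW w] ∧ x.Prime ∧ (x + h).Prime ∧
          (x + k).Prime ∧ (x + k + h).Prime)).card := by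
      refine le_trans (card_le_card ?_) (card_pairs (A := A) (B := B) hB hk'.1.1)
      rw [← hPdef]
      intro q hq
      rw [mem_filter, mem_filter] at hq
      exact mem_filter.2 ⟨hq.1.1, hq.2⟩
    have h7 := hmaj n (by omega) y hy1 hy2 ξ h k hh hhn hk'.1.1 hk'.1.2 hk'.2.2 hk'.2.1
    rw [← hPp] at h7
    have h8 : ((((P ×ˢ P).filter (fun q : ℕ × ℕ => q.2 ≠ q.1 ∧ Nat.dist q.1 q.2 ≠ h)).filter
        (fun q => Nat.dist q.1 q.2 = k)).card : ℝ) ≤
        2 * (((Icc 1 (2 * n)).filter (fun x => x ≡ ξ [MOD WW w] ∧ x.Prime ∧ (x + h).Prime ∧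
          (x + k).Prime ∧ (x + k + h).Prime)).card : ℝ) := by exact_mod_cast h6
    linarith
  -- second step
  have s2 : ∑ k ∈ K, 2 * (C1 * (n / WW w) * Pp ^ 2 * GG w k h) * (GG w k h - 1) ≤
      2 * (C1 * (n / WW w) * Pp ^ 2) * (3 * Ca * (n / WW w) / w) := by
    have h1 : ∑ k ∈ K, 2 * (C1 * (n / WW w) * Pp ^ 2 * GG w k h) * (GG w k h - 1) ≤
        ∑ k ∈ K, 2 * (C1 * (n / WW w) * Pp ^ 2) * (GG w k h ^ 2 - 1) := by
      refine Finset.sum_le_sum fun k _ => ?_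
      have hG := one_le_GG w k h
      have hpos : 0 ≤ 2 * (C1 * (n / WW w) * Pp ^ 2) := by positivity
      have e : 2 * (C1 * (n / WW w) * Pp ^ 2 * GG w k h) * (GG w k h - 1) =
          2 * (C1 * (n / WW w) * Pp ^ 2) * (GG w k h ^ 2 - GG w k h) := by ring
      rw [e]
      exact mul_le_mul_of_nonneg_left (by linarith) hpos
    refine h1.trans ?_
    rw [← Finset.mul_sum]
    refine mul_le_mul_of_nonneg_left ?_ (by positivity)
    rw [hK]
    exact sum_K hhn (fun N hN r => havg N (by omega) r)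
  -- third step
  have hlog : 0 < Real.log n := Real.log_pos (by exact_mod_cast (by omega : 1 < n))
  have hV := Vz_pos w
  have s3 : n / WW w * Pp ≤ 2 * C2 / c0 * P.card := by
    have h1 := hmert n (by omega) y hy2 h hh
    rw [← hPp] at h1
    have h2 : Pp ≤ C2 / (Vz w ^ 2 * Real.log n ^ 2) * 2 :=
      h1.trans (mul_le_mul_of_nonneg_left hgw (by positivity))
    rw [← hPdef] at hP
    calc n / WW w * Pp ≤ n / WW w * (C2 / (Vz w ^ 2 * Real.log n ^ 2) * 2) :=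
          mul_le_mul_of_nonneg_left h2 (by positivity)
      _ = 2 * C2 / c0 * (c0 * (n / (WW w * Vz w ^ 2 * Real.log n ^ 2))) := by
          field_simp
      _ ≤ 2 * C2 / c0 * P.card := mul_le_mul_of_nonneg_left hP (by positivity)
  have hPp0 : 0 ≤ Pp := by
    rw [hPp]
    unfold Pi2
    refine Finset.prod_nonneg fun p hp => ?_
    have h3 : (3 : ℝ) ≤ p := by
      have := (mem_filter.1 hp).2
      exact_mod_cast (by omega : 3 ≤ p)
    have h5 : (2 : ℝ) / p ≤ 2 / 3 := by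
      rw [div_le_div_iff₀ (by linarith) (by norm_num)]
      linarith
    have h4 : (1 : ℝ) / p ≤ 1 / 3 := one_div_le_one_div_of_le (by norm_num) h3
    split_ifs
    · push_cast; linarith
    · push_cast; linarith
  have s4 : (n / WW w * Pp) ^ 2 ≤ (2 * C2 / c0 * P.card) ^ 2 :=
    pow_le_pow_left₀ (by positivity) s3 2
  rw [← hPdef]
  calc SG w h P ≤ 2 * (C1 * (n / WW w) * Pp ^ 2) * (3 * Ca * (n / WW w) / w) := s1.trans s2
    _ = 6 * C1 * Ca / w * (n / WW w * Pp) ^ 2 := by ring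
    _ ≤ 6 * C1 * Ca / w * (2 * C2 / c0 * P.card) ^ 2 :=
        mul_le_mul_of_nonneg_left s4 (by positivity)
    _ = 6 * C1 * Ca * (2 * C2 / c0) ^ 2 / w * (P.card : ℝ) ^ 2 := by ring

end Pool.Agent.P8H54.GM
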